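import Pool.Agent.Helper78.WK3.StA
import Pool.Agent.Helper2.W3.M_CoreOf

/-!
# Project WK3, module DIM3
-/

set_option autoImplicit false

namespace Pool.Agent.Helper2.WK3

open Pool.Agent.Helper78.WK3 Pool.Agent.Helper78.W3 Pool.Agent.Helper14.W3 Pool.Agent.Helper14.CV
open Pool.Agent.Helper2.W3 (V V_bound)

theorem hDim3 (h3a : S3B3a) (h3b : S3B3b) (hUB : S3UB) : DimS3 := by
  intro m G hm hG hli H hH
  obtain ⟨v1, v2⟩ := V_bound h3a h3b hUB m (by omega)
  have hle : Submodule.span ℂ (Set.range fun k => evL3 (G k)) ≤ V m := by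
    rw [Submodule.span_le]
    rintro x ⟨k, rfl⟩
    exact ⟨G k, hG k, rfl⟩
  have hrk : Module.finrank ℂ (V m) ≤
      Module.finrank ℂ (Submodule.span ℂ (Set.range fun k => evL3 (G k))) := by
    rw [finrank_span_eq_card hli, Fintype.card_fin]
    exact v2
  have heq := Submodule.eq_of_le_of_finrank_le hle hrk
  rw [heq]
  exact ⟨H, hH, rfl⟩

end Pool.Agent.Helper2.WK3
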